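import Mathlib

set_option autoImplicit false

namespace Pool.Agent.KS6_21.W

/-- Exponent vectors of length `k + 1`. -/
abbrev Vc (k : ℕ) : Type := Fin (k + 1) → ℕ

variable {k : ℕ}

/-- The number of generators used. -/
def ln (x : Vc k) : ℕ := ∑ i, x i

/-- The sum of the indices used. -/
def sm (x : Vc k) : ℕ := ∑ i, x i * (i : ℕ)

/-- The unit vector at `j`. -/
def E (k j : ℕ) : Vc k := fun i => if (i : ℕ) = j then 1 else 0

lemma ln_add (x y : Vc k) : ln (x + y) = ln x + ln y := by
  simp [ln, Finset.sum_add_distrib]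

lemma sm_add (x y : Vc k) : sm (x + y) = sm x + sm y := by
  simp [sm, add_mul, Finset.sum_add_distrib]

lemma ln_smul (c : ℕ) (x : Vc k) : ln (c • x) = c * ln x := by
  simp [ln, Finset.mul_sum]

lemma sm_smul (c : ℕ) (x : Vc k) : sm (c • x) = c * sm x := by
  simp [sm, Finset.mul_sum, mul_assoc]

lemma ln_zero : ln (0 : Vc k) = 0 := by simp [ln]

lemma sm_zero : sm (0 : Vc k) = 0 := by simp [sm]

lemma ln_E {j : ℕ} (hj : j ≤ k) : ln (E k j) = 1 := by
  unfold ln E
  rw [Finset.sum_eq_single (⟨j, by omega⟩ : Fin (k + 1))]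
  · simp
  · intro i _ hi
    rw [if_neg]
    intro h
    exact hi (Fin.ext h)
  · simp

lemma sm_E {j : ℕ} (hj : j ≤ k) : sm (E k j) = j := by
  unfold sm E
  rw [Finset.sum_eq_single (⟨j, by omega⟩ : Fin (k + 1))]
  · simp
  · intro i _ hi
    rw [if_neg, zero_mul]
    intro h
    exact hi (Fin.ext h)
  · simp

lemma sm_le (x : Vc k) : sm x ≤ k * ln x := by
  unfold sm ln
  rw [Finset.mul_sum]
  apply Finset.sum_le_sum
  intro i _
  rw [mul_comm]
  exact Nat.mul_le_mul_right _ (by omega)

lemma eq_zero_of_ln {x : Vc k} (h : ln x = 0) : x = 0 := by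
  unfold ln at h
  rw [Finset.sum_eq_zero_iff] at h
  funext i
  exact h i (Finset.mem_univ i)

lemma exists_pred {x : Vc k} (h : ln x ≠ 0) :
    ∃ (i : ℕ) (y : Vc k), i ≤ k ∧ x = y + E k i := by
  have h1 : ∃ i, x i ≠ 0 := by
    by_contra hcon
    push Not at hcon
    apply h
    simp [ln, hcon]
  obtain ⟨i, hi⟩ := h1
  refine ⟨i, fun j => x j - E k i j, by omega, ?_⟩
  funext j
  simp only [Pi.add_apply, E]
  by_cases hj : (j : ℕ) = i
  · have : j = i := Fin.ext hj
    subst this
    simp
    omega
  · simp [hj]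

/-- A vector of given length and sum exists. -/
lemma exists_vec (l s : ℕ) (h : s ≤ k * l) : ∃ z : Vc k, ln z = l ∧ sm z = s := by
  induction l generalizing s with
  | zero =>
    refine ⟨0, ln_zero, ?_⟩
    rw [sm_zero]
    omega
  | succ l ih =>
    by_cases hs : s ≤ k
    · refine ⟨l • E k 0 + E k s, ?_, ?_⟩
      · rw [ln_add, ln_smul, ln_E (Nat.zero_le k), ln_E hs]
        omega
      · rw [sm_add, sm_smul, sm_E (Nat.zero_le k), sm_E hs]
        omega
    · obtain ⟨z, h1, h2⟩ := ih (s - k) (by rw [mul_add] at h; omega)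
      refine ⟨z + E k k, ?_, ?_⟩
      · rw [ln_add, h1, ln_E le_rfl]
      · rw [sm_add, h2, sm_E le_rfl]
        omega

/-- The weight with respect to the generators `m, m + d, …, m + k d`. -/
def wg (m d : ℕ) (x : Vc k) : ℕ := ∑ i, x i * (m + i * d)

lemma wg_eq (m d : ℕ) (x : Vc k) : wg m d x = ln x * m + sm x * d := by
  unfold wg ln sm
  rw [Finset.sum_mul, Finset.sum_mul, ← Finset.sum_add_distrib]
  apply Finset.sum_congr rfl
  intro i _
  ring

/-- Factorizations of the same number of different lengths. -/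
lemma diff {m d : ℕ} (hd : 0 < d) (hmd : Nat.Coprime m d) {x y : Vc k}
    (h : wg m d x = wg m d y) (hl : ln x ≤ ln y) :
    ∃ c, ln y = ln x + d * c ∧ sm x = sm y + c * m := by
  rw [wg_eq, wg_eq] at h
  obtain ⟨u, hu⟩ := Nat.exists_eq_add_of_le hl
  rw [hu] at h
  have h1 : sm x * d = u * m + sm y * d := by
    have : (ln x + u) * m = ln x * m + u * m := by ring
    omega
  have h2 : d ∣ u * m := by
    have h3 : d ∣ u * m + sm y * d := ⟨sm x, by rw [← h1, mul_comm]⟩
    exact (Nat.dvd_add_left (Dvd.intro_left _ rfl)).1 h3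
  have h4 : d ∣ u := (Nat.Coprime.dvd_of_dvd_mul_right hmd.symm h2)
  obtain ⟨c, hc⟩ := h4
  refine ⟨c, by rw [hu, hc], ?_⟩
  rw [hc] at h1
  have h5 : sm x * d = (sm y + c * m) * d := by rw [h1]; ring
  exact Nat.eq_of_mul_eq_mul_right hd h5

section Upper

variable (C : AddCon (Vc k)) {a b d m : ℕ}

lemma normal
    (hA1 : ∀ i j, 1 ≤ i → 1 ≤ j → i < k → j < k → i + j ≤ k →
      C (E k i + E k j) (E k 0 + E k (i + j)))
    (hA2 : ∀ i j, 1 ≤ i → 1 ≤ j → i < k → j < k → k < i + j →
      C (E k i + E k j) (E k (i + j - k) + E k k)) (x : Vc k) (hx : ln x ≠ 0) :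
    ∃ p q r, r ≤ k ∧ p + q + 1 = ln x ∧ r + q * k = sm x ∧
      C x (p • E k 0 + E k r + q • E k k) := by
  obtain ⟨n, hn⟩ : ∃ n, n = ln x := ⟨_, rfl⟩
  induction n using Nat.strong_induction_on generalizing x with
  | _ n ih =>
  obtain ⟨i, y, hik, rfl⟩ := exists_pred hx
  have hlx : ln (y + E k i) = ln y + 1 := by rw [ln_add, ln_E hik]
  have hsx : sm (y + E k i) = sm y + i := by rw [sm_add, sm_E hik]
  by_cases hy : ln y = 0
  · have hy0 := eq_zero_of_ln hy
    subst hy0
    refine ⟨0, 0, i, hik, ?_, ?_, ?_⟩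
    · rw [hlx, hy]
    · rw [hsx, sm_zero]
      omega
    · simp only [zero_smul, zero_add, add_zero]
      exact C.refl _
  obtain ⟨p, q, r, hr, h1, h2, h3⟩ := ih (ln y) (by omega) y hy rfl
  have h4 : C (y + E k i) (p • E k 0 + E k r + q • E k k + E k i) := C.add h3 (C.refl _)
  by_cases hr0 : r = 0
  · subst hr0
    refine ⟨p + 1, q, i, hik, by omega, by omega, ?_⟩
    have : (p + 1) • E k 0 + E k i + q • E k k = p • E k 0 + E k 0 + q • E k k + E k i := by
      rw [add_smul, one_smul]; abel
    rw [this]
    exact h4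
  by_cases hrk : r = k
  · subst hrk
    refine ⟨p, q + 1, i, hik, by omega, ?_, ?_⟩
    · rw [hsx, ← h2]; ring
    · have : p • E r 0 + E r i + (q + 1) • E r r = p • E r 0 + E r r + q • E r r + E r i := by
        rw [add_smul, one_smul]; abel
      rw [this]
      exact h4
  by_cases hi0 : i = 0
  · subst hi0
    refine ⟨p + 1, q, r, hr, by omega, by omega, ?_⟩
    have : (p + 1) • E k 0 + E k r + q • E k k = p • E k 0 + E k r + q • E k k + E k 0 := by
      rw [add_smul, one_smul]; abel
    rw [this]
    exact h4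
  by_cases hik' : i = k
  · subst hik'
    refine ⟨p, q + 1, r, hr, by omega, ?_, ?_⟩
    · rw [hsx, ← h2]; ring
    · have : p • E i 0 + E i r + (q + 1) • E i i = p • E i 0 + E i r + q • E i i + E i i := by
        rw [add_smul, one_smul]; abel
      rw [this]
      exact h4
  by_cases hri : r + i ≤ k
  · refine ⟨p + 1, q, r + i, hri, by omega, by omega, ?_⟩
    refine C.trans h4 ?_
    have e1 : p • E k 0 + E k r + q • E k k + E k i =
        (p • E k 0 + q • E k k) + (E k r + E k i) := by abel
    have e2 : (p + 1) • E k 0 + E k (r + i) + q • E k k =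
        (p • E k 0 + q • E k k) + (E k 0 + E k (r + i)) := by
      rw [add_smul, one_smul]; abel
    rw [e1, e2]
    exact C.add (C.refl _) (hA1 r i (by omega) (by omega) (by omega) (by omega) hri)
  · refine ⟨p, q + 1, r + i - k, by omega, by omega, ?_, ?_⟩
    · rw [hsx, ← h2, add_mul, one_mul]; omega
    refine C.trans h4 ?_
    have e1 : p • E k 0 + E k r + q • E k k + E k i =
        (p • E k 0 + q • E k k) + (E k r + E k i) := by abel
    have e2 : p • E k 0 + E k (r + i - k) + (q + 1) • E k k =
        (p • E k 0 + q • E k k) + (E k (r + i - k) + E k k) := by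
      rw [add_smul, one_smul]; abel
    rw [e1, e2]
    exact C.add (C.refl _) (hA2 r i (by omega) (by omega) (by omega) (by omega) (by omega))

lemma same (hk : 1 ≤ k)
    (hA1 : ∀ i j, 1 ≤ i → 1 ≤ j → i < k → j < k → i + j ≤ k →
      C (E k i + E k j) (E k 0 + E k (i + j)))
    (hA2 : ∀ i j, 1 ≤ i → 1 ≤ j → i < k → j < k → k < i + j →
      C (E k i + E k j) (E k (i + j - k) + E k k)) (x y : Vc k) (h1 : ln x = ln y)
    (h2 : sm x = sm y) : C x y := by
  by_cases hx : ln x = 0
  · rw [eq_zero_of_ln hx, eq_zero_of_ln (h1.symm.trans hx)]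
    exact C.refl _
  obtain ⟨p, q, r, hr, h3, h4, h5⟩ := normal C hA1 hA2 x hx
  obtain ⟨p', q', r', hr', h3', h4', h5'⟩ := normal C hA1 hA2 y (by omega)
  refine C.trans h5 (C.trans ?_ (C.symm h5'))
  have hpq : p + q = p' + q' := by omega
  have hrq : r + q * k = r' + q' * k := by omega
  have key : p • E k 0 + E k r + q • E k k = p' • E k 0 + E k r' + q' • E k k := by
    rcases Nat.lt_trichotomy q q' with h | h | h
    · obtain ⟨c, hc⟩ := Nat.exists_eq_add_of_lt h
      subst hc
      have h6 : c * k + r' + k = r := by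
        have : (q + c + 1) * k = q * k + c * k + k := by ring
        omega
      have h7 : c * k = 0 := by omega
      have hc0 : c = 0 := by
        rcases Nat.mul_eq_zero.1 h7 with h | h <;> omega
      subst hc0
      have hr1 : r = k := by omega
      have hr2 : r' = 0 := by omega
      subst hr1 hr2
      have hp : p = p' + 1 := by omega
      subst hp
      rw [add_smul, add_zero, add_smul, one_smul, one_smul]
      abel
    · subst h
      have : p = p' := by omega
      subst this
      have : r = r' := by omega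
      subst this
      rfl
    · obtain ⟨c, hc⟩ := Nat.exists_eq_add_of_lt h
      subst hc
      have h6 : c * k + r + k = r' := by
        have : (q' + c + 1) * k = q' * k + c * k + k := by ring
        omega
      have h7 : c * k = 0 := by omega
      have hc0 : c = 0 := by
        rcases Nat.mul_eq_zero.1 h7 with h | h <;> omega
      subst hc0
      have hr1 : r' = k := by omega
      have hr2 : r = 0 := by omega
      subst hr1 hr2
      have hp : p' = p + 1 := by omega
      subst hp
      rw [add_smul, add_zero, add_smul, one_smul, one_smul]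
      abel
  rw [key]
  exact C.refl _

lemma upStep (hk : 1 ≤ k) (hb : 1 ≤ b) (hbk : b ≤ k) (hm : m = a * k + b)
    (hA1 : ∀ i j, 1 ≤ i → 1 ≤ j → i < k → j < k → i + j ≤ k →
      C (E k i + E k j) (E k 0 + E k (i + j)))
    (hA2 : ∀ i j, 1 ≤ i → 1 ≤ j → i < k → j < k → k < i + j →
      C (E k i + E k j) (E k (i + j - k) + E k k))
    (hB : ∀ t, t ≤ k - b → C ((a + d) • E k 0 + E k t) (a • E k k + E k (b + t)))
    (x y : Vc k) (h1 : ln y = ln x + d) (h2 : sm x = sm y + m) : C x y := by
  have h3 := sm_le x
  have hla : a + 1 ≤ ln x := by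
    by_contra hcon
    have h4 : k * ln x ≤ k * a := Nat.mul_le_mul_left _ (by omega)
    have h5 : a * k = k * a := mul_comm _ _
    omega
  obtain ⟨l, hl⟩ := Nat.exists_eq_add_of_le hla
  have hs : sm y ≤ k * l + (k - b) := by
    have h5 : k * ln x = a * k + k + k * l := by rw [hl]; ring
    omega
  obtain ⟨t, ht, hts⟩ : ∃ t, t ≤ k - b ∧ t ≤ sm y ∧ sm y - t ≤ k * l := by
    by_cases h : sm y ≤ k * l
    · exact ⟨0, Nat.zero_le _, Nat.zero_le _, by omega⟩
    · exact ⟨sm y - k * l, by omega, by omega, by omega⟩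
  obtain ⟨z, hz1, hz2⟩ := exists_vec (k := k) l (sm y - t) hts.2
  have hbt : b + t ≤ k := by omega
  have htk : t ≤ k := by omega
  have c1 : C x (z + (a • E k k + E k (b + t))) := by
    apply same C hk hA1 hA2
    · rw [ln_add, ln_add, ln_smul, ln_E le_rfl, ln_E hbt, hz1, hl]; omega
    · rw [sm_add, sm_add, sm_smul, sm_E le_rfl, sm_E hbt, hz2, h2, hm]; omega
  have c2 : C (z + ((a + d) • E k 0 + E k t)) y := by
    apply same C hk hA1 hA2
    · rw [ln_add, ln_add, ln_smul, ln_E (Nat.zero_le _), ln_E htk, hz1, h1, hl]; omega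
    · rw [sm_add, sm_add, sm_smul, sm_E (Nat.zero_le _), sm_E htk, hz2]; omega
  exact C.trans c1 (C.trans (C.add (C.refl _) (C.symm (hB t ht))) c2)

lemma allRel (hk : 1 ≤ k) (hb : 1 ≤ b) (hbk : b ≤ k) (hm : m = a * k + b) (hd : 0 < d)
    (hmd : Nat.Coprime m d)
    (hA1 : ∀ i j, 1 ≤ i → 1 ≤ j → i < k → j < k → i + j ≤ k →
      C (E k i + E k j) (E k 0 + E k (i + j)))
    (hA2 : ∀ i j, 1 ≤ i → 1 ≤ j → i < k → j < k → k < i + j →
      C (E k i + E k j) (E k (i + j - k) + E k k))
    (hB : ∀ t, t ≤ k - b → C ((a + d) • E k 0 + E k t) (a • E k k + E k (b + t)))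
    (x y : Vc k) (h : wg m d x = wg m d y) : C x y := by
  have main : ∀ (c : ℕ) (x y : Vc k), ln y = ln x + d * c → sm x = sm y + c * m → C x y := by
    intro c
    induction c with
    | zero =>
      intro x y h1 h2
      exact same C hk hA1 hA2 x y (by omega) (by omega)
    | succ c ih =>
      intro x y h1 h2
      have h3 := sm_le x
      have h4 : sm x - m ≤ k * (ln x + d) := by rw [mul_add]; omega
      obtain ⟨z, hz1, hz2⟩ := exists_vec (k := k) (ln x + d) (sm x - m) h4
      have h5 : (c + 1) * m = c * m + m := by ring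
      have h6 : d * (c + 1) = d + d * c := by ring
      refine C.trans (upStep C hk hb hbk hm hA1 hA2 hB x z hz1 (by omega)) ?_
      exact ih z y (by omega) (by omega)
  rcases le_total (ln x) (ln y) with hl | hl
  · obtain ⟨c, h1, h2⟩ := diff hd hmd h hl
    exact main c x y h1 h2
  · obtain ⟨c, h1, h2⟩ := diff hd hmd h.symm hl
    exact C.symm (main c y x h1 h2)

end Upper

section Rels

variable (k) (a b d : ℕ)

/-- The indices of the relations. -/
abbrev Ix : Type := Sym2 (Fin (k - 1)) ⊕ Fin (k - b + 1)

/-- The product of two inner generators. -/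
def pairV (z : Sym2 (Fin (k - 1))) : Vc k :=
  Sym2.lift ⟨fun (i j : Fin (k - 1)) => E k ((i : ℕ) + 1) + E k ((j : ℕ) + 1),
    fun _ _ => add_comm _ _⟩ z

/-- The other side of the relation of two inner generators. -/
def pairW (z : Sym2 (Fin (k - 1))) : Vc k :=
  Sym2.lift ⟨fun (i j : Fin (k - 1)) =>
    if (i : ℕ) + 1 + (j + 1) ≤ k then E k 0 + E k ((i : ℕ) + 1 + (j + 1))
    else E k ((i : ℕ) + 1 + (j + 1) - k) + E k k, fun i j => by
      simp only [add_comm ((i : ℕ) + 1) ((j : ℕ) + 1)]⟩ z

/-- The relations. -/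
def relV : Ix k b → Vc k × Vc k
  | Sum.inl z => (pairV k z, pairW k z)
  | Sum.inr t => ((a + d) • E k 0 + E k t, a • E k k + E k (b + t))

lemma pairV_mk (i j : Fin (k - 1)) : pairV k s(i, j) = E k (i + 1) + E k (j + 1) := rfl

lemma pairW_mk (i j : Fin (k - 1)) : pairW k s(i, j) =
    if (i : ℕ) + 1 + (j + 1) ≤ k then E k 0 + E k ((i : ℕ) + 1 + (j + 1))
    else E k ((i : ℕ) + 1 + (j + 1) - k) + E k k := rfl

lemma card_Ix (hk : 1 ≤ k) : Fintype.card (Ix k b) = k.choose 2 + (k - b + 1) := by
  rw [Fintype.card_sum, Sym2.card, Fintype.card_fin, Fintype.card_fin, Nat.sub_add_cancel hk]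

end Rels

lemma wg_add (m d : ℕ) (x y : Vc k) : wg m d (x + y) = wg m d x + wg m d y := by
  rw [wg_eq, wg_eq, wg_eq, ln_add, sm_add]; ring

lemma wg_rel {a b d m : ℕ} (hbk : b ≤ k) (hm : m = a * k + b) (z : Ix k b) :
    wg m d (relV k a b d z).1 = wg m d (relV k a b d z).2 := by
  rcases z with z | t
  · induction z using Sym2.ind with
    | _ i j =>
      show wg m d (pairV k s(i, j)) = wg m d (pairW k s(i, j))
      rw [pairV_mk, pairW_mk]
      have hi := i.isLt
      have hj := j.isLt
      split_ifs with h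
      · rw [wg_eq, wg_eq, ln_add, ln_add, sm_add, sm_add, ln_E (by omega), ln_E (by omega),
          ln_E (by omega), ln_E (by omega), sm_E (by omega), sm_E (by omega), sm_E (by omega),
          sm_E (by omega), zero_add]
      · rw [wg_eq, wg_eq, ln_add, ln_add, sm_add, sm_add, ln_E (by omega), ln_E (by omega),
          ln_E (by omega), ln_E (by omega), sm_E (by omega), sm_E (by omega), sm_E (by omega),
          sm_E (by omega), Nat.sub_add_cancel (by omega)]
  · have ht := t.isLt
    show wg m d ((a + d) • E k 0 + E k t) = wg m d (a • E k k + E k (b + t))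
    rw [wg_eq, wg_eq, ln_add, ln_add, sm_add, sm_add, ln_smul, ln_smul, sm_smul, sm_smul,
      ln_E (by omega), ln_E (by omega), ln_E (by omega), ln_E (by omega), sm_E (by omega),
      sm_E (by omega), sm_E (by omega), sm_E (by omega), hm]
    ring

/-- The congruence of equal weight. -/
def wCon (k m d : ℕ) : AddCon (Vc k) where
  r x y := wg m d x = wg m d y
  iseqv := ⟨fun _ => rfl, fun h => h.symm, fun h1 h2 => h1.trans h2⟩
  add' := by
    intro w x y z h1 h2
    show wg m d (w + y) = wg m d (x + z)
    rw [wg_add, wg_add, h1, h2]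

/-- The upper bound for arithmetic progressions. -/
theorem ap_upper {a b d m : ℕ} (hk : 1 ≤ k) (hb : 1 ≤ b) (hbk : b ≤ k) (hm : m = a * k + b)
    (hd : 0 < d) (hmd : Nat.Coprime m d) :
    ∃ R : Set (Vc k × Vc k), R.encard ≤ (k.choose 2 + (k - b + 1) : ℕ) ∧
      ∀ x y : Vc k, (addConGen (fun p q => (p, q) ∈ R)) x y ↔ wg m d x = wg m d y := by
  classical
  refine ⟨Set.range (relV k a b d), ?_, ?_⟩
  · rw [← card_Ix k b hk, ← Set.image_univ]
    refine (Set.encard_image_le _ _).trans ?_
    rw [Set.encard_univ, ENat.card_eq_coe_fintype_card]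
  · intro x y
    constructor
    · intro h
      have hle : addConGen (fun p q => (p, q) ∈ Set.range (relV k a b d)) ≤ wCon k m d := by
        rw [AddCon.addConGen_le]
        rintro p q ⟨z, hz⟩
        show wg m d p = wg m d q
        have h1 := wg_rel (d := d) hbk hm z
        rw [hz] at h1
        exact h1
      exact hle h
    · intro h
      refine allRel _ hk hb hbk hm hd hmd ?_ ?_ ?_ x y h
      · intro i j hi hj hik hjk hij
        apply AddConGen.Rel.of
        refine ⟨Sum.inl s(⟨i - 1, by omega⟩, ⟨j - 1, by omega⟩), ?_⟩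
        show (pairV k _, pairW k _) = _
        rw [pairV_mk, pairW_mk]
        simp only
        rw [Nat.sub_add_cancel hi, Nat.sub_add_cancel hj, if_pos hij]
      · intro i j hi hj hik hjk hij
        apply AddConGen.Rel.of
        refine ⟨Sum.inl s(⟨i - 1, by omega⟩, ⟨j - 1, by omega⟩), ?_⟩
        show (pairV k _, pairW k _) = _
        rw [pairV_mk, pairW_mk]
        simp only
        rw [Nat.sub_add_cancel hi, Nat.sub_add_cancel hj, if_neg (by omega)]
      · intro t ht
        apply AddConGen.Rel.of
        exact ⟨Sum.inr ⟨t, by omega⟩, rfl⟩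

/-! ### The lower bound -/

section Lower

variable (k) (a b d : ℕ)

/-- The class of a factorization. -/
noncomputable def vecF (x : Vc k) : Ix k b → ℚ := by
  classical
  exact fun z => match z with
    | Sum.inl p => if x = pairV k p then 1 else 0
    | Sum.inr t => if ln x = a + d + 1 ∧ sm x = t then 1 else 0

variable {k} {a b d}

lemma vecF_inl (x : Vc k) (p : Sym2 (Fin (k - 1))) [Decidable (x = pairV k p)] :
    vecF k a b d x (Sum.inl p) = if x = pairV k p then 1 else 0 := by
  unfold vecF
  simp only
  congr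

lemma vecF_inr (x : Vc k) (t : Fin (k - b + 1)) :
    vecF k a b d x (Sum.inr t) = if ln x = a + d + 1 ∧ sm x = t then 1 else 0 := by
  unfold vecF
  simp only

lemma ln_pair (p : Sym2 (Fin (k - 1))) : ln (pairV k p) = 2 := by
  induction p using Sym2.ind with
  | _ i j =>
    have hi := i.isLt
    have hj := j.isLt
    rw [pairV_mk, ln_add, ln_E (by omega), ln_E (by omega)]

lemma E_apply {i j : ℕ} (h : i < k + 1) : E k j ⟨i, h⟩ = if i = j then 1 else 0 := rfl

lemma pair_zero (p : Sym2 (Fin (k - 1))) : pairV k p ⟨0, by omega⟩ = 0 := by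
  induction p using Sym2.ind with
  | _ i j =>
    rw [pairV_mk, Pi.add_apply, E_apply, E_apply, if_neg (by omega), if_neg (by omega)]

lemma pair_last (p : Sym2 (Fin (k - 1))) : pairV k p ⟨k, by omega⟩ = 0 := by
  induction p using Sym2.ind with
  | _ i j =>
    have hi := i.isLt
    have hj := j.isLt
    rw [pairV_mk, Pi.add_apply, E_apply, E_apply, if_neg (by omega), if_neg (by omega)]

lemma E_inj {i j : ℕ} (hi : i ≤ k) (h : E k i = E k j) : i = j := by
  have h1 := congrFun h ⟨i, by omega⟩
  rw [E_apply, E_apply, if_pos rfl] at h1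
  by_contra hne
  rw [if_neg hne] at h1
  omega

lemma pairV_inj : Function.Injective (pairV k) := by
  intro z z'
  induction z using Sym2.ind with
  | _ i j =>
    induction z' using Sym2.ind with
    | _ u l =>
      intro h
      have hi := i.isLt
      have hj := j.isLt
      have hu := u.isLt
      have hl := l.isLt
      rw [pairV_mk, pairV_mk] at h
      have h1 := congrFun h ⟨(i : ℕ) + 1, by omega⟩
      rw [Pi.add_apply, Pi.add_apply, E_apply, E_apply, E_apply, E_apply, if_pos rfl] at h1
      by_cases hiu : i = u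
      · subst hiu
        have h2 := E_inj (by omega) (add_left_cancel h)
        have : j = l := Fin.ext (by omega)
        rw [this]
      · by_cases hil : i = l
        · subst hil
          rw [add_comm (E k (u + 1))] at h
          have h2 := E_inj (by omega) (add_left_cancel h)
          have : j = u := Fin.ext (by omega)
          rw [this, Sym2.eq_swap]
        · exfalso
          have h3 : (i : ℕ) ≠ u := fun h => hiu (Fin.ext h)
          have h4 : (i : ℕ) ≠ l := fun h => hil (Fin.ext h)
          rw [if_neg (by omega : ¬ ((i : ℕ) + 1 = u + 1)),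
            if_neg (by omega : ¬ ((i : ℕ) + 1 = l + 1))] at h1
          omega

/-- Distinct factorizations of the same number have length at least two. -/
lemma len_two {m : ℕ} (hk : 1 ≤ k) (ha : 1 ≤ a) (hb : 1 ≤ b) (hm : m = a * k + b)
    (hd : 0 < d) (hmd : Nat.Coprime m d) {x y : Vc k} (h : wg m d x = wg m d y) (hne : x ≠ y) :
    2 ≤ ln x := by
  have hmk : k < m := by
    rw [hm]
    have := Nat.mul_le_mul_right k ha
    omega
  have hx := sm_le x
  have hy := sm_le y
  rcases le_total (ln x) (ln y) with hl | hl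
  · obtain ⟨c, h1, h2⟩ := diff hd hmd h hl
    by_contra hcon
    have hlx : ln x = 0 ∨ ln x = 1 := by omega
    have hc : c = 0 := by
      by_contra hc0
      have h3 : m ≤ c * m := Nat.le_mul_of_pos_left m (Nat.pos_of_ne_zero hc0)
      have h4 : k * ln x ≤ k := by
        rcases hlx with h | h <;> rw [h] <;> omega
      omega
    subst hc
    rw [mul_zero, add_zero] at h1
    rw [zero_mul, add_zero] at h2
    rcases hlx with h0 | h0
    · apply hne
      rw [eq_zero_of_ln h0, eq_zero_of_ln (h1.trans h0)]
    · obtain ⟨i, u, hi, rfl⟩ := exists_pred (x := x) (by omega)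
      obtain ⟨j, v, hj, rfl⟩ := exists_pred (x := y) (by omega)
      rw [ln_add, ln_E hi] at h0
      have hu : u = 0 := eq_zero_of_ln (by omega)
      rw [ln_add, ln_add, ln_E hi, ln_E hj] at h1
      have hv : v = 0 := eq_zero_of_ln (by omega)
      subst hu hv
      rw [zero_add, zero_add, sm_E hi, sm_E hj] at h2
      apply hne
      rw [h2]
  · obtain ⟨c, h1, h2⟩ := diff hd hmd h.symm hl
    by_contra hcon
    have hly : ln y = 0 ∨ ln y = 1 := by omega
    have hc : c = 0 := by
      by_contra hc0
      have h3 : m ≤ c * m := Nat.le_mul_of_pos_left m (Nat.pos_of_ne_zero hc0)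
      have h4 : k * ln y ≤ k := by
        rcases hly with h | h <;> rw [h] <;> omega
      omega
    subst hc
    rw [mul_zero, add_zero] at h1
    rw [zero_mul, add_zero] at h2
    rcases hly with h0 | h0
    · apply hne
      rw [eq_zero_of_ln h0, eq_zero_of_ln (h1.trans h0)]
    · obtain ⟨i, u, hi, rfl⟩ := exists_pred (x := y) (by omega)
      obtain ⟨j, v, hj, rfl⟩ := exists_pred (x := x) (by omega)
      rw [ln_add, ln_E hi] at h0
      have hu : u = 0 := eq_zero_of_ln (by omega)
      rw [ln_add, ln_add, ln_E hi, ln_E hj] at h1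
      have hv : v = 0 := eq_zero_of_ln (by omega)
      subst hu hv
      rw [zero_add, zero_add, sm_E hi, sm_E hj] at h2
      apply hne
      rw [h2]

lemma vecF_shift {m : ℕ} (hk : 1 ≤ k) (ha : 1 ≤ a) (hb : 1 ≤ b) (hm : m = a * k + b)
    (hd : 0 < d) (hmd : Nat.Coprime m d) {x y c : Vc k} (h : wg m d x = wg m d y) (hne : x ≠ y)
    (hc : c ≠ 0) : vecF k a b d (x + c) = vecF k a b d (y + c) := by
  classical
  have hmk : k < m := by
    rw [hm]
    have := Nat.mul_le_mul_right k ha
    omega
  have hx2 := len_two hk ha hb hm hd hmd h hne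
  have hy2 := len_two hk ha hb hm hd hmd h.symm hne.symm
  have hc1 : 1 ≤ ln c := by
    by_contra hcon
    exact hc (eq_zero_of_ln (by omega))
  have aux : ∀ x y : Vc k, wg m d x = wg m d y → ln x < ln y → ∀ t : Fin (k - b + 1),
      ¬ (ln (x + c) = a + d + 1 ∧ sm (x + c) = t) ∧
      ¬ (ln (y + c) = a + d + 1 ∧ sm (y + c) = t) := by
    intro x y h hl t
    obtain ⟨u, h1, h2⟩ := diff hd hmd h hl.le
    have hu : 1 ≤ u := by
      by_contra hu0
      have : u = 0 := by omega
      subst this
      omega
    have h3 : m ≤ u * m := Nat.le_mul_of_pos_left m hu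
    have h4 : d ≤ d * u := Nat.le_mul_of_pos_right d hu
    have ht := t.isLt
    have h5 := sm_le x
    constructor
    · rintro ⟨_, h6⟩
      rw [sm_add] at h6
      omega
    · rintro ⟨h6, _⟩
      rw [ln_add] at h6
      have h7 : a + 1 ≤ ln x := by
        by_contra hcon
        have h8 : k * ln x ≤ k * a := Nat.mul_le_mul_left _ (by omega)
        have h9 : a * k = k * a := mul_comm _ _
        omega
      omega
  funext z
  rcases z with p | t
  · rw [vecF_inl, vecF_inl, if_neg, if_neg]
    · intro h1
      have h2 := congrArg ln h1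
      rw [ln_pair, ln_add] at h2
      omega
    · intro h1
      have h2 := congrArg ln h1
      rw [ln_pair, ln_add] at h2
      omega
  · rw [vecF_inr, vecF_inr]
    rcases Nat.lt_trichotomy (ln x) (ln y) with hl | hl | hl
    · have h1 := aux x y h hl t
      rw [if_neg h1.1, if_neg h1.2]
    · obtain ⟨u, h1, h2⟩ := diff hd hmd h hl.le
      have hu : u = 0 := by
        have : d * u = 0 := by omega
        rcases Nat.mul_eq_zero.1 this with h | h
        · omega
        · exact h
      subst hu
      have h3 : sm x = sm y := by omega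
      rw [ln_add, ln_add, sm_add, sm_add, hl, h3]
    · have h1 := aux y x h.symm hl t
      rw [if_neg h1.1, if_neg h1.2]

/-- Every unit vector is the difference of the two sides of a relation. -/
lemma vecF_rel (ha : 1 ≤ a) (hbk : b ≤ k) (hb : 1 ≤ b) (hd : 0 < d) (z : Ix k b) :
    vecF k a b d (relV k a b d z).1 - vecF k a b d (relV k a b d z).2 = Pi.single z 1 := by
  classical
  rcases z with p | t
  · show vecF k a b d (pairV k p) - vecF k a b d (pairW k p) = _
    have hW : ln (pairW k p) = 2 ∧ (pairW k p ⟨0, by omega⟩ ≠ 0 ∨ pairW k p ⟨k, by omega⟩ ≠ 0) := by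
      induction p using Sym2.ind with
      | _ i j =>
        have hi := i.isLt
        have hj := j.isLt
        rw [pairW_mk]
        split_ifs with h
        · refine ⟨by rw [ln_add, ln_E (by omega), ln_E (by omega)], Or.inl ?_⟩
          rw [Pi.add_apply, E_apply, if_pos rfl]
          omega
        · refine ⟨by rw [ln_add, ln_E (by omega), ln_E (by omega)], Or.inr ?_⟩
          rw [Pi.add_apply, E_apply, E_apply, if_pos rfl]
          omega
    funext z
    rcases z with q | t
    · rw [Pi.sub_apply, vecF_inl, vecF_inl]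
      rw [if_neg (show ¬ pairW k p = pairV k q by
        intro h1
        rcases hW.2 with h2 | h2
        · rw [h1, pair_zero] at h2
          exact h2 rfl
        · rw [h1, pair_last] at h2
          exact h2 rfl), sub_zero]
      by_cases hpq : p = q
      · subst hpq
        simp
      · rw [if_neg (fun h => hpq (pairV_inj h)), Pi.single_eq_of_ne]
        intro h
        exact hpq (Sum.inl_injective h).symm
    · rw [Pi.sub_apply, vecF_inr, vecF_inr, ln_pair, hW.1, if_neg (by omega), if_neg (by omega),
        sub_zero, Pi.single_eq_of_ne (by simp)]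
  · show vecF k a b d ((a + d) • E k 0 + E k t) - vecF k a b d (a • E k k + E k (b + t)) = _
    have ht := t.isLt
    have h1 : ln ((a + d) • E k 0 + E k t) = a + d + 1 := by
      rw [ln_add, ln_smul, ln_E (by omega), ln_E (by omega)]; omega
    have h2 : sm ((a + d) • E k 0 + E k t) = t := by
      rw [sm_add, sm_smul, sm_E (by omega), sm_E (by omega)]; omega
    have h3 : ln (a • E k k + E k (b + t)) = a + 1 := by
      rw [ln_add, ln_smul, ln_E (by omega), ln_E (by omega)]; omega
    funext z
    rcases z with q | t'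
    · rw [Pi.sub_apply, vecF_inl, vecF_inl, if_neg, if_neg, sub_zero,
        Pi.single_eq_of_ne (by simp)]
      · intro h4
        have h5 := congrFun h4 ⟨k, by omega⟩
        rw [pair_last, Pi.add_apply, Pi.smul_apply, E_apply, if_pos rfl] at h5
        simp only [smul_eq_mul, mul_one] at h5
        omega
      · intro h4
        have h5 := congrArg ln h4
        rw [ln_pair, h1] at h5
        omega
    · rw [Pi.sub_apply, vecF_inr, vecF_inr, h1, h2, h3,
        if_neg (show ¬ (a + 1 = a + d + 1 ∧ _) by omega), sub_zero]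
      by_cases htt : t = t'
      · subst htt
        simp
      · rw [if_neg, Pi.single_eq_of_ne]
        · intro h
          exact htt (Sum.inr_injective h).symm
        · rintro ⟨_, h⟩
          exact htt (Fin.ext h)

/-- The lower bound for arithmetic progressions. -/
theorem ap_lower {m : ℕ} (hk : 1 ≤ k) (ha : 1 ≤ a) (hb : 1 ≤ b) (hbk : b ≤ k)
    (hm : m = a * k + b) (hd : 0 < d) (hmd : Nat.Coprime m d) (R : Set (Vc k × Vc k))
    (hR : ∀ x y : Vc k, (addConGen (fun p q => (p, q) ∈ R)) x y ↔ wg m d x = wg m d y) :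
    ((k.choose 2 + (k - b + 1) : ℕ) : ℕ∞) ≤ R.encard := by
  classical
  by_cases hfin : R.Finite
  swap
  · rw [Set.encard_eq_top_iff.2 hfin]
    exact le_top
  let vec : Vc k → (Ix k b → ℚ) := vecF k a b d
  let T : Set (Ix k b → ℚ) := (fun p => vec p.1 - vec p.2) '' R
  have hTfin : T.Finite := hfin.image _
  let V : Submodule ℚ (Ix k b → ℚ) := Submodule.span ℚ T
  let C : AddCon (Vc k) :=
    { r := fun x y => wg m d x = wg m d y ∧ vec x - vec y ∈ V
      iseqv := by
        refine ⟨fun x => ⟨rfl, by simp⟩, ?_, ?_⟩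
        · rintro x y ⟨h1, h2⟩
          refine ⟨h1.symm, ?_⟩
          rw [← neg_sub]
          exact V.neg_mem h2
        · rintro x y z ⟨h1, h2⟩ ⟨h3, h4⟩
          refine ⟨h1.trans h3, ?_⟩
          have := V.add_mem h2 h4
          rwa [sub_add_sub_cancel] at this
      add' := by
        have key : ∀ x y c : Vc k, (wg m d x = wg m d y ∧ vec x - vec y ∈ V) →
            vec (x + c) - vec (y + c) ∈ V := by
          rintro x y c ⟨h1, h2⟩
          by_cases hc : c = 0
          · subst hc; simpa using h2
          by_cases hxy : x = y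
          · subst hxy; simp
          have h3 : vec (x + c) = vec (y + c) := vecF_shift hk ha hb hm hd hmd h1 hxy hc
          rw [h3, sub_self]
          exact V.zero_mem
        rintro w x y z ⟨h1, h2⟩ ⟨h3, h4⟩
        refine ⟨?_, ?_⟩
        · rw [wg_add, wg_add, h1, h3]
        · have h5 := key w x y ⟨h1, h2⟩
          have h6 := key y z x ⟨h3, h4⟩
          rw [add_comm y x, add_comm z x] at h6
          have h7 := V.add_mem h5 h6
          rwa [sub_add_sub_cancel] at h7 }
  have hle : addConGen (fun x y => (x, y) ∈ R) ≤ C := by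
    rw [AddCon.addConGen_le]
    intro x y hxy
    exact ⟨(hR x y).1 (AddConGen.Rel.of _ _ hxy), Submodule.subset_span ⟨(x, y), hxy, rfl⟩⟩
  have hsing : ∀ z : Ix k b, (Pi.single z 1 : Ix k b → ℚ) ∈ V := by
    intro z
    have h1 : (addConGen (fun x y => (x, y) ∈ R)) (relV k a b d z).1 (relV k a b d z).2 :=
      (hR _ _).2 (wg_rel hbk hm z)
    have h2 : vec (relV k a b d z).1 - vec (relV k a b d z).2 ∈ V := (hle h1).2
    rwa [vecF_rel ha hbk hb hd z] at h2
  have htop : V = ⊤ := by
    rw [eq_top_iff]
    intro x _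
    have hx : x = ∑ z, x z • (Pi.single z 1 : Ix k b → ℚ) := by
      funext z'
      rw [Finset.sum_apply, Finset.sum_eq_single z']
      · simp
      · intro z _ hz
        simp [Pi.single_eq_of_ne hz.symm]
      · intro h
        exact absurd (Finset.mem_univ _) h
    rw [hx]
    exact V.sum_mem (fun z _ => V.smul_mem _ (hsing z))
  have hrank : k.choose 2 + (k - b + 1) = Module.finrank ℚ V := by
    rw [htop, finrank_top, Module.finrank_pi, card_Ix k b hk]
  have hspan : Module.finrank ℚ V ≤ hTfin.toFinset.card := by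
    have h1 : V = Submodule.span ℚ ((hTfin.toFinset : Finset _) : Set (Ix k b → ℚ)) := by
      rw [Set.Finite.coe_toFinset]
    rw [h1]
    exact finrank_span_finset_le_card _
  have hcard : hTfin.toFinset.card ≤ hfin.toFinset.card := by
    have h1 : hTfin.toFinset = hfin.toFinset.image (fun p => vec p.1 - vec p.2) := by
      ext x
      simp [T]
    rw [h1]
    exact Finset.card_image_le
  rw [hfin.encard_eq_coe_toFinset_card]
  have : k.choose 2 + (k - b + 1) ≤ hfin.toFinset.card := by omega
  exact_mod_cast this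

end Lower

end Pool.Agent.KS6_21.W
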