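import Pool.Agent.KS6_21.W.Tor

/-!
Global existence for Lipschitz fields in a toric inclusion, and the uniform statement for
endotactic systems.
-/

set_option autoImplicit false

namespace Pool.Agent.KS6_21.W

open Finset MeasureTheory W712.WR Pool.Agent.W287.WR.Perman Pool.Agent.Y614.WR.Unif

variable {n : ℕ} {U : Finset (Fin n → ℝ)} {δ : ℝ}
  {T : Finset ((Fin n → ℝ) × (ℝ → ℝ))} {c M : ℝ → ℝ} {R0 : ℝ}

/-- positive solutions of `x' = G (t, x)` -/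
structure Sol (G : ℝ → (Fin n → ℝ) → (Fin n → ℝ)) (y : ℝ → Fin n → ℝ) (J : Set ℝ) : Prop where
  pos : ∀ t ∈ J, ∀ i, 0 < y t i
  ac : ∀ a ∈ J, ∀ b ∈ J, a ≤ b → AbsolutelyContinuousOnInterval y a b
  ode : ∀ᵐ t, t ∈ J → HasDerivAt y (G t (y t)) t

/-- existence of a global solution, and uniqueness -/
theorem exists_lip (B : Bod U δ T c M R0) (G : ℝ → (Fin n → ℝ) → (Fin n → ℝ))
    (hGm : ∀ x : Fin n → ℝ, (∀ i, 0 < x i) → Measurable fun t => G t x)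
    (hGL : ∀ m N : ℝ, 0 < m → ∃ L : NNReal, ∀ t, LipschitzOnWith L (G t)
      (Set.Icc (fun _ => m) (fun _ => N)) ∧
      ∀ x ∈ Set.Icc (fun _ : Fin n => m) (fun _ => N), ‖G t x‖ ≤ L)
    (hP : ∀ t x, (∀ i, 0 < x i) → ∀ w, Inw U δ x w → ∑ j, w j * G t x j ≤ 0)
    (z : Fin n → ℝ) (hz : ∀ i, 0 < z i) :
    ∃ y : ℝ → Fin n → ℝ, y 0 = z ∧ Sol G y (Set.Ici 0) ∧
      ∀ (J : Set ℝ) (x : ℝ → Fin n → ℝ), J.OrdConnected → (0 : ℝ) ∈ J → J ⊆ Set.Ici 0 →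
        Sol G x J → x 0 = z → ∀ t ∈ J, y t = x t := by
  obtain ⟨R', hR'⟩ := B.exh z hz
  set R := max R0 R' with hR
  have hR0 : R0 ≤ R := le_max_left _ _
  have hval0 : ∀ p ∈ T, ∑ j, p.1 j * z j - p.2 R ≤ 0 := fun p hp => by
    have := hR' R (le_max_right _ _) p hp
    linarith
  set m := c R with hm
  set N := max (M R) (c R) with hN
  have hm0 : 0 < m := B.cpos R
  have hmN : m ≤ N := le_max_right _ _
  obtain ⟨L, hL⟩ := hGL m N hm0
  -- the clamped field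
  set cl : (Fin n → ℝ) → (Fin n → ℝ) := fun z j => max m (min (z j) N) with hcl
  have hclL : LipschitzWith 1 cl := by
    refine LipschitzWith.of_dist_le_mul fun x y => ?_
    rw [NNReal.coe_one, one_mul, dist_pi_le_iff dist_nonneg]
    intro j
    have h1 : LipschitzWith 1 (fun r : ℝ => max m (min r N)) :=
      (LipschitzWith.id.min_const N).const_max m
    calc dist (cl x j) (cl y j) ≤ 1 * dist (x j) (y j) := h1.dist_le_mul _ _
      _ = dist (x j) (y j) := one_mul _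
      _ ≤ dist x y := dist_le_pi_dist x y j
  have hclm : ∀ z, cl z ∈ Set.Icc (fun _ : Fin n => m) (fun _ : Fin n => N) := by
    intro z
    refine ⟨fun j => le_max_left _ _, fun j => max_le hmN (min_le_right _ _)⟩
  have hclid : ∀ z : Fin n → ℝ, (∀ j, m ≤ z j ∧ z j ≤ N) → cl z = z := by
    intro z hz
    funext j
    simp only [hcl]
    rw [min_eq_left (hz j).2, max_eq_right (hz j).1]
  set Gc : ℝ → (Fin n → ℝ) → (Fin n → ℝ) := fun t x => G t (cl x) with hGc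
  have hGf : ∀ t x, (∀ j, c R ≤ x j ∧ x j ≤ M R) → Gc t x = G t x := fun t x hx => by
    simp only [hGc]
    rw [hclid x fun j => ⟨(hx j).1, (hx j).2.trans (le_max_left _ _)⟩]
  have hGcL : ∀ t, LipschitzWith L (Gc t) := by
    intro t
    refine LipschitzWith.of_dist_le_mul fun x y => ?_
    refine ((hL t).1.dist_le_mul _ (hclm x) _ (hclm y)).trans ?_
    refine mul_le_mul_of_nonneg_left ?_ L.2
    simpa using hclL.dist_le_mul x y
  obtain ⟨y, hy0, hyL, hyd⟩ := cara' n Gc L L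
    (fun x => hGm (cl x) fun i => hm0.trans_le ((hclm x).1 i)) hGcL
    (fun t x => (hL t).2 _ (hclm x)) z
  have hyac : ∀ a b : ℝ, 0 ≤ a → a ≤ b → AbsolutelyContinuousOnInterval y a b := by
    intro a b ha hab
    refine (hyL.mono ?_).absolutelyContinuousOnInterval
    rw [Set.uIcc_of_le hab]
    intro t ht
    exact ha.trans ht.1
  have hyd' : ∀ᵐ t, t ∈ Set.Ici (0 : ℝ) → HasDerivAt y (Gc t (y t)) t := by
    filter_upwards [hyd, ae_ne_zero] with t ht ht0 htm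
    exact ht (lt_of_le_of_ne htm (Ne.symm ht0))
  -- curves following the clamped field stay in the body
  have stayG : ∀ (x : ℝ → Fin n → ℝ) (t : ℝ), 0 ≤ t → AbsolutelyContinuousOnInterval x 0 t →
      (∀ᵐ s, s ∈ Set.Icc 0 t → HasDerivAt x (Gc s (x s)) s) →
      (∀ p ∈ T, ∑ j, p.1 j * x 0 j - p.2 R ≤ 0) →
      ∀ s ∈ Set.Icc 0 t, ∀ p ∈ T, ∑ j, p.1 j * x s j - p.2 R ≤ 0 := by
    intro x t ht hac hd h0
    have key := coreAE T x (fun s => Gc s (x s)) 0 t (c R) R 0 ht (B.cpos R) B.smooth hac hd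
      (by intro p hp; simpa using h0 p hp) ?_
    · intro s hs p hp
      simpa using key s hs p hp
    · refine Filter.Eventually.of_forall fun r _ p hp h1 h2 h3 => ?_
      simp only [zero_mul, sub_zero, add_zero] at h1 h2 h3 ⊢
      have hbox : ∀ j, c R ≤ x r j ∧ x r j ≤ M R :=
        B.bnd R hR0 (x r) (fun q hq => (h1 q hq).trans h3)
      rw [hGf r (x r) hbox]
      exact hP r _ (fun i => hm0.trans_le (hbox i).1) p.1 (B.dir R hR0 (x r) p hp h1 h2 h3)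
  have hybox : ∀ t, 0 ≤ t → ∀ p ∈ T, ∑ j, p.1 j * y t j - p.2 R ≤ 0 := by
    intro t ht
    refine stayG y t ht (hyac 0 t le_rfl ht) ?_ (by rw [hy0]; exact hval0) t ⟨ht, le_rfl⟩
    filter_upwards [hyd'] with s hs hsm
    exact hs hsm.1
  have hbox : ∀ w : Fin n → ℝ, (∀ p ∈ T, ∑ j, p.1 j * w j - p.2 R ≤ 0) →
      ∀ j, c R ≤ w j ∧ w j ≤ M R := fun w hw =>
    B.bnd R hR0 w (fun p hp => (hw p hp).trans (B.cpos R).le)
  refine ⟨y, hy0, ⟨?_, ?_, ?_⟩, ?_⟩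
  · intro t ht i
    exact (B.cpos R).trans_le (hbox _ (hybox t ht) i).1
  · intro a ha b _ hab
    exact hyac a b ha hab
  · filter_upwards [hyd'] with t ht htm
    rw [← hGf t (y t) (hbox _ (hybox t htm))]
    exact ht htm
  · intro J x hJ h0J hJ0 hx hx0 t ht
    have ht0 : (0 : ℝ) ≤ t := hJ0 ht
    have hxac := hx.ac 0 h0J t ht ht0
    have hxd : ∀ᵐ s, s ∈ Set.Icc 0 t → HasDerivAt x (G s (x s)) s := by
      filter_upwards [hx.ode] with s hs hsm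
      exact hs (hJ.out h0J ht hsm)
    -- `x` stays in the body
    have hxbox : ∀ s ∈ Set.Icc 0 t, ∀ p ∈ T, ∑ j, p.1 j * x s j - p.2 R ≤ 0 := by
      have key := coreAE T x (fun s => G s (x s)) 0 t (c R) R 0 ht0 (B.cpos R) B.smooth hxac hxd
        (by intro p hp; rw [hx0]; simpa using hval0 p hp) ?_
      · intro s hs p hp
        simpa using key s hs p hp
      · refine Filter.Eventually.of_forall fun r hr p hp h1 h2 h3 => ?_
        simp only [zero_mul, sub_zero, add_zero] at h1 h2 h3 ⊢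
        exact hP r _ (hx.pos r (hJ.out h0J ht hr)) p.1 (B.dir R hR0 (x r) p hp h1 h2 h3)
    refine uniq' n Gc L hGcL y x t ht0 (hyac 0 t le_rfl ht0) hxac ?_ ?_ (by rw [hy0, hx0]) t
      ⟨ht0, le_rfl⟩
    · filter_upwards [hyd'] with s hs hsm
      exact hs hsm.1
    · filter_upwards [hxd] with s hs hsm
      rw [hGf s (x s) (hbox _ (hxbox s hsm))]
      exact hs hsm

/-- global existence for Lipschitz fields whose values are allowed by a toric inclusion -/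
theorem toric_wellposed (U : Finset (Fin n → ℝ)) (C : ℝ) (G : ℝ → (Fin n → ℝ) → (Fin n → ℝ))
    (hGm : ∀ x : Fin n → ℝ, (∀ i, 0 < x i) → Measurable fun t => G t x)
    (hGL : ∀ m N : ℝ, 0 < m → ∃ L : NNReal, ∀ t, LipschitzOnWith L (G t)
      (Set.Icc (fun _ => m) (fun _ => N)) ∧
      ∀ x ∈ Set.Icc (fun _ : Fin n => m) (fun _ => N), ‖G t x‖ ≤ L)
    (hG : ∀ t x, (∀ i, 0 < x i) → Tor U C (fun _ => 0) x (G t x))
    (z : Fin n → ℝ) (hz : ∀ i, 0 < z i) :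
    ∃ y : ℝ → Fin n → ℝ, y 0 = z ∧ Sol G y (Set.Ici 0) ∧
      ∀ (J : Set ℝ) (x : ℝ → Fin n → ℝ), J.OrdConnected → (0 : ℝ) ∈ J → J ⊆ Set.Ici 0 →
        Sol G x J → x 0 = z → ∀ t ∈ J, y t = x t := by
  classical
  set δ := Real.log (max C 1) with hδdef
  have hδ : C ≤ Real.exp δ := by
    rw [hδdef, Real.exp_log (lt_of_lt_of_le one_pos (le_max_right _ _))]
    exact le_max_left _ _
  obtain ⟨T, c, M, R0, B⟩ := bod (U ∪ U.image fun u => -u) δ
  exact exists_lip B G hGm hGL (fun t x hx w hw => tor_le hδ hx (hG t x hx) hw) z hz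

/-- the uniform statement for endotactic systems -/
theorem unifD {E : Finset ((Fin n → ℝ) × (Fin n → ℝ))} {ε : ℝ} (D : Dat E ε T c M R0)
    (C₀ : Set (Fin n → ℝ)) (hC₀ : IsCompact C₀) (hC₀p : ∀ x ∈ C₀, ∀ i, 0 < x i) :
    ∃ K : Set (Fin n → ℝ), IsCompact K ∧ Convex ℝ K ∧ (∀ x ∈ K, ∀ i, 0 < x i) ∧ C₀ ⊆ K ∧
      (∀ x₀ ∈ C₀, IsCompact (K ∩ cls E x₀)) ∧
      (∀ k : (Fin n → ℝ) × (Fin n → ℝ) → ℝ → ℝ,
        (∀ e ∈ E, ∀ t : ℝ, ε ≤ k e t ∧ k e t ≤ 1 / ε) → ∀ (J : Set ℝ) (x : ℝ → Fin n → ℝ),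
        J.OrdConnected → IsSol E k x J → ∀ s ∈ J, x s ∈ K → ∀ t ∈ J, s ≤ t → x t ∈ K) ∧
      ∀ C : Set (Fin n → ℝ), IsCompact C → (∀ z ∈ C, ∃ x₀ ∈ C₀, z ∈ cls E x₀) →
        ∃ τ : ℝ, 0 < τ ∧ ∀ k : (Fin n → ℝ) × (Fin n → ℝ) → ℝ → ℝ,
          (∀ e ∈ E, ∀ t : ℝ, ε ≤ k e t ∧ k e t ≤ 1 / ε) → ∀ (J : Set ℝ) (x : ℝ → Fin n → ℝ),
          J.OrdConnected → IsSol E k x J → ∀ s ∈ J, x s ∈ C → ∀ t ∈ J, s + τ ≤ t → x t ∈ K := by
  obtain ⟨m, B, hm, hB⟩ := box_of_compact hC₀ hC₀p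
  obtain ⟨R', hR'⟩ := exh_box D m B hm
  set R1 := max R0 R' with hR1
  have hR01 : R0 ≤ R1 := le_max_left _ _
  have hx₀ : ∀ x₀ ∈ C₀, ∀ R, R1 ≤ R → ∀ p ∈ T, ∑ j, p.1 j * x₀ j < p.2 R := fun x₀ hx R hR =>
    hR' R ((le_max_right _ _).trans hR) x₀ (hB x₀ hx)
  refine ⟨Kb T R1, Kb_compact D hR01, Kb_convex R1, fun x hx i => Kb_pos D hR01 hx i, ?_,
    fun x₀ _ => Kb_cls D hR01 x₀, ?_, ?_⟩
  · intro x hx p hp
    have := hx₀ x hx R1 le_rfl p hp
    linarith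
  · intro k hk J x hJ hx s hs hxs t ht hst
    exact fwd noExitAC' D k hk hR01 J hJ x hx hs ht hst hxs
  · intro C hC hCC
    have hCp : ∀ x ∈ C, ∀ i, 0 < x i := by
      intro x hx
      obtain ⟨x₀, _, h⟩ := hCC x hx
      exact h.1
    obtain ⟨m', B', hm', hB'⟩ := box_of_compact hC hCp
    obtain ⟨R'', hR''⟩ := exh_box D m' B' hm'
    set R2 := max R1 R'' with hR2
    have h12 : R1 ≤ R2 := le_max_left _ _
    obtain ⟨τ, hτ, H⟩ := absorbU noExitAC' D hR01 h12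
    refine ⟨τ, hτ, fun k hk J x hJ hx s hs hxs t ht hst => ?_⟩
    obtain ⟨x₀, hx₀C, hcl⟩ := hCC (x s) hxs
    refine H k hk x₀ (hx₀ x₀ hx₀C) J hJ x hx s hs hcl ?_ t ht hst
    intro p hp
    have := hR'' R2 (le_max_right _ _) (x s) (hB' _ hxs) p hp
    linarith

end Pool.Agent.KS6_21.W
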