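import Pool.Graph.R_seed8.Y614.WR.Unif
import Pool.Graph.R_seed8.TH310.EndoPerm

/-!
Toric differential inclusions: the bodies of `W712.WR.MainStm` are forward invariant, and
absorbing under a drift condition.
-/

set_option autoImplicit false

namespace Pool.Agent.KS6_21.W

open Finset MeasureTheory W712.WR Pool.Agent.W287.WR.Perman Pool.Agent.Y614.WR.Unif

variable {n : ℕ}

/-- the bodies for a finite set `U` of directions and a constant `δ` -/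
structure Bod (U : Finset (Fin n → ℝ)) (δ : ℝ)
    (T : Finset ((Fin n → ℝ) × (ℝ → ℝ))) (c M : ℝ → ℝ) (R0 : ℝ) : Prop where
  cc : Continuous c
  cM : Continuous M
  cpos : ∀ R, 0 < c R
  smooth : ∀ p ∈ T, ContDiff ℝ 1 p.2
  exh : ∀ x : Fin n → ℝ, (∀ j, 0 < x j) → ∃ R1 : ℝ, ∀ R, R1 ≤ R →
      ∀ p ∈ T, ∑ j, p.1 j * x j < p.2 R
  bnd : ∀ R, R0 ≤ R → ∀ x : Fin n → ℝ,
      (∀ p ∈ T, ∑ j, p.1 j * x j - p.2 R ≤ c R) → ∀ j, c R ≤ x j ∧ x j ≤ M R
  dir : ∀ R, R0 ≤ R → ∀ x : Fin n → ℝ, ∀ p ∈ T,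
      (∀ q ∈ T, ∑ j, q.1 j * x j - q.2 R ≤ ∑ j, p.1 j * x j - p.2 R) →
      0 ≤ ∑ j, p.1 j * x j - p.2 R → ∑ j, p.1 j * x j - p.2 R ≤ c R →
      ∀ u ∈ U, 0 < ∑ j, p.1 j * u j → δ < ∑ j, u j * Real.log (x j)

theorem bod (U : Finset (Fin n → ℝ)) (δ : ℝ) : ∃ (T : Finset ((Fin n → ℝ) × (ℝ → ℝ)))
    (c M : ℝ → ℝ) (R0 : ℝ), Bod U δ T c M R0 := by
  obtain ⟨T, c, M, hc, hM, hc0, hT, hexh, ⟨Rb, hRb⟩, hdir⟩ := main' n U
  obtain ⟨Rd, hRd⟩ := hdir δ
  exact ⟨T, c, M, max Rb Rd, hc, hM, hc0, hT, hexh,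
    fun R hR => hRb R ((le_max_left _ _).trans hR),
    fun R hR => hRd R ((le_max_right _ _).trans hR)⟩

variable {U : Finset (Fin n → ℝ)} {δ : ℝ}
  {T : Finset ((Fin n → ℝ) × (ℝ → ℝ))} {c M : ℝ → ℝ} {R0 : ℝ}

theorem Bod.toDat (B : Bod U δ T c M R0) :
    Dat (∅ : Finset ((Fin n → ℝ) × (Fin n → ℝ))) 1 T c M R0 := by
  refine ⟨B.cc, B.cM, B.cpos, B.smooth, B.exh, B.bnd, ?_, ?_⟩
  · intro R _ x k _ p _ _ _ _
    simp [fld]
  · intro R1 R2 _
    exact ⟨1, one_pos, fun R _ _ x k _ p _ h => absurd h (by simp)⟩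

/-- `w` is a possible outer normal at `x` -/
def Inw (U : Finset (Fin n → ℝ)) (δ : ℝ) (x w : Fin n → ℝ) : Prop :=
  ∀ u ∈ U, 0 < ∑ j, w j * u j → δ < ∑ j, u j * Real.log (x j)

/-- positive curves `y` on `J` whose velocity `v` satisfies `P (y t) v` at almost every time -/
structure IsCurve (P : (Fin n → ℝ) → (Fin n → ℝ) → Prop) (y : ℝ → Fin n → ℝ) (J : Set ℝ) :
    Prop where
  pos : ∀ t ∈ J, ∀ i, 0 < y t i
  ac : ∀ a ∈ J, ∀ b ∈ J, a ≤ b → AbsolutelyContinuousOnInterval y a b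
  vel : ∀ᵐ t, t ∈ J → ∃ v, HasDerivAt y v t ∧ P (y t) v

/-- the no-exit principle for the moving body `K_{R - η t}`, with conditions at almost every
time -/
theorem coreAE (T : Finset ((Fin n → ℝ) × (ℝ → ℝ)))
    (y v : ℝ → Fin n → ℝ) (a b c₀ R η : ℝ) (hab : a ≤ b) (hc : 0 < c₀)
    (hT : ∀ p ∈ T, ContDiff ℝ 1 p.2)
    (hy : AbsolutelyContinuousOnInterval y a b)
    (hd : ∀ᵐ t, t ∈ Set.Icc a b → HasDerivAt y (v t) t)
    (h0 : ∀ p ∈ T, ∑ j, p.1 j * y a j - p.2 (R - η * a) ≤ 0)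
    (hmax : ∀ᵐ t, t ∈ Set.Icc a b → ∀ p ∈ T,
      (∀ q ∈ T, ∑ j, q.1 j * y t j - q.2 (R - η * t) ≤ ∑ j, p.1 j * y t j - p.2 (R - η * t)) →
      0 ≤ ∑ j, p.1 j * y t j - p.2 (R - η * t) →
      ∑ j, p.1 j * y t j - p.2 (R - η * t) ≤ c₀ →
      ∑ j, p.1 j * v t j + η * deriv p.2 (R - η * t) ≤ 0) :
    ∀ t ∈ Set.Icc a b, ∀ p ∈ T, ∑ j, p.1 j * y t j - p.2 (R - η * t) ≤ 0 := by
  have key := noExitAC' {p // p ∈ T} (fun p t => ∑ j, p.1.1 j * y t j - p.1.2 (R - η * t))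
    (fun p t => ∑ j, p.1.1 j * v t j + η * deriv p.1.2 (R - η * t)) a b c₀ hab hc ?_ ?_ ?_ ?_
  · intro t ht p hp
    exact key t ht ⟨p, hp⟩
  · rintro ⟨p, hp⟩
    have h1 : AbsolutelyContinuousOnInterval (fun t => ∑ j, p.1 j * y t j) a b := by
      have := ac_lin hy (Lw p.1)
      simpa only [Lw_apply] using this
    have h2 : AbsolutelyContinuousOnInterval (fun t => p.2 (R - η * t)) a b := by
      apply ContDiffOn.absolutelyContinuousOnInterval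
      apply ContDiff.contDiffOn
      exact (hT p hp).comp (by fun_prop)
    exact h1.fun_sub h2
  · rintro ⟨p, hp⟩
    filter_upwards [hd] with t ht htab
    have h1 : HasDerivAt (fun t => ∑ j, p.1 j * y t j) (∑ j, p.1 j * v t j) t := by
      have := (Lw p.1).hasFDerivAt.comp_hasDerivAt t (ht htab)
      simpa only [Lw_apply, Function.comp_def] using this
    have h3 : HasDerivAt (fun t : ℝ => R - η * t) (-η) t := by
      have := ((hasDerivAt_id t).const_mul η).const_sub R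
      simpa using this
    have h4 : HasDerivAt p.2 (deriv p.2 (R - η * t)) (R - η * t) :=
      ((hT p hp).differentiable (by norm_num)).differentiableAt.hasDerivAt
    have h5 := h4.comp t h3
    have h6 := h1.sub h5
    have h7 : ∑ j, p.1 j * v t j + η * deriv p.2 (R - η * t) =
        ∑ j, p.1 j * v t j - deriv p.2 (R - η * t) * (-η) := by ring
    show HasDerivAt (fun t => ∑ j, p.1 j * y t j - p.2 (R - η * t))
      (∑ j, p.1 j * v t j + η * deriv p.2 (R - η * t)) t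
    rw [h7]
    exact h6
  · rintro ⟨p, hp⟩
    exact h0 p hp
  · filter_upwards [hmax] with t hmax ht
    rintro ⟨p, hp⟩ h1 h2 h3
    exact hmax ht p hp (fun q hq => h1 ⟨q, hq⟩) h2 h3

theorem IsCurve.deriv {P : (Fin n → ℝ) → (Fin n → ℝ) → Prop} {y : ℝ → Fin n → ℝ} {J : Set ℝ}
    (hy : IsCurve P y J) : ∀ᵐ t, t ∈ J → HasDerivAt y (deriv y t) t ∧ P (y t) (deriv y t) := by
  filter_upwards [hy.vel] with t ht htJ
  obtain ⟨v, hv, hP⟩ := ht htJ
  rw [hv.deriv]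
  exact ⟨hv, hP⟩

/-- the bodies are forward invariant -/
theorem fwdT (B : Bod U δ T c M R0) {R : ℝ} (hR : R0 ≤ R) (J : Set ℝ) (hJ : J.OrdConnected)
    (P : (Fin n → ℝ) → (Fin n → ℝ) → Prop)
    (hP : ∀ x v, (∀ i, 0 < x i) → P x v → ∀ w, Inw U δ x w → ∑ j, w j * v j ≤ 0)
    (y : ℝ → Fin n → ℝ) (hy : IsCurve P y J) {s t : ℝ}
    (hs : s ∈ J) (ht : t ∈ J) (hst : s ≤ t) (h0 : y s ∈ Kb T R) : y t ∈ Kb T R := by
  have key := coreAE T y (deriv y) s t (c R) R 0 hst (B.cpos R) B.smooth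
    (hy.ac s hs t ht hst) (by
      filter_upwards [hy.deriv] with r hr hrm
      exact (hr (hJ.out hs ht hrm)).1) (by intro p hp; simpa using h0 p hp) ?_
  · intro p hp
    simpa using key t ⟨hst, le_rfl⟩ p hp
  · filter_upwards [hy.deriv] with r hr hrm p hp h1 h2 h3
    have hrJ := hJ.out hs ht hrm
    simp only [zero_mul, sub_zero, add_zero] at h1 h2 h3 ⊢
    exact hP _ _ (hy.pos r hrJ) (hr hrJ).2 p.1 (B.dir R hR (y r) p hp h1 h2 h3)

/-- the absorbing time is uniform -/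
theorem absorbT (B : Bod U δ T c M R0) {R1 R2 : ℝ} (hR1 : R0 ≤ R1) (h12 : R1 ≤ R2)
    (P : (Fin n → ℝ) → (Fin n → ℝ) → Prop)
    (hP : ∀ x v, (∀ i, 0 < x i) → P x v → ∀ w, Inw U δ x w → ∑ j, w j * v j ≤ 0)
    (κ : (Fin n → ℝ) → ℝ) (hκ : ContinuousOn κ {x | ∀ i, 0 < x i})
    (hκ0 : ∀ x : Fin n → ℝ, (∀ i, 0 < x i) → 0 < κ x)
    (m : (Fin n → ℝ) → ℝ) (hm : ∀ p ∈ T, (∃ u ∈ U, ∑ j, p.1 j * u j ≠ 0) → 0 < m p.1)
    (hstr : ∀ x v, (∀ i, 0 < x i) → P x v → ∀ p ∈ T, (∃ u ∈ U, ∑ j, p.1 j * u j ≠ 0) →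
      Inw U δ x p.1 → ∑ j, p.1 j * v j ≤ -(κ x * m p.1)) :
    ∃ τ : ℝ, 0 < τ ∧ ∀ x₀ : Fin n → ℝ,
      (∀ R, R1 ≤ R → ∀ p ∈ T, ∑ j, p.1 j * x₀ j < p.2 R) →
      ∀ (J : Set ℝ), J.OrdConnected → ∀ y : ℝ → Fin n → ℝ, IsCurve P y J →
      ∀ s ∈ J, (∀ r ∈ J, s ≤ r → ∀ w : Fin n → ℝ, (∀ u ∈ U, ∑ j, w j * u j = 0) →
        ∑ j, w j * y r j = ∑ j, w j * x₀ j) → y s ∈ Kb T R2 →
      ∀ t ∈ J, s + τ ≤ t → y t ∈ Kb T R1 := by
  classical
  have D := B.toDat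
  -- bounds of the box for the parameters in `[R1, R2]`
  obtain ⟨r0, hr0, hmin⟩ := isCompact_Icc.exists_isMinOn (Set.nonempty_Icc.2 h12)
    B.cc.continuousOn
  obtain ⟨r1, hr1, hmx⟩ := isCompact_Icc.exists_isMaxOn (Set.nonempty_Icc.2 h12)
    B.cM.continuousOn
  obtain ⟨κ0, hκ00, hκ0'⟩ : ∃ κ0 : ℝ, 0 < κ0 ∧
      ∀ x ∈ Set.Icc (fun _ : Fin n => c r0) (fun _ : Fin n => M r1), κ0 ≤ κ x :=
    isCompact_Icc.exists_forall_le' (hκ.mono fun x hx i => (B.cpos r0).trans_le (hx.1 i))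
      fun x hx => hκ0 x fun i => (B.cpos r0).trans_le (hx.1 i)
  obtain ⟨m0, hm0, hm0'⟩ : ∃ m0 : ℝ, 0 < m0 ∧ ∀ p ∈ T, (∃ u ∈ U, ∑ j, p.1 j * u j ≠ 0) →
      m0 ≤ m p.1 := by
    set Z := (T.filter fun p => ∃ u ∈ U, ∑ j, p.1 j * u j ≠ 0).image fun p => m p.1 with hZ
    by_cases h : Z.Nonempty
    · refine ⟨Z.min' h, ?_, fun p hp hu => Finset.min'_le _ _
        (Finset.mem_image.2 ⟨p, Finset.mem_filter.2 ⟨hp, hu⟩, rfl⟩)⟩
      obtain ⟨p, hp, he⟩ := Finset.mem_image.1 (Finset.min'_mem _ h)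
      rw [← he]
      rw [Finset.mem_filter] at hp
      exact hm p hp.1 hp.2
    · refine ⟨1, one_pos, fun p hp hu => absurd ⟨m p.1, Finset.mem_image.2
        ⟨p, Finset.mem_filter.2 ⟨hp, hu⟩, rfl⟩⟩ h⟩
  set κ' := κ0 * m0 with hκ'
  have hκ'0 : 0 < κ' := mul_pos hκ00 hm0
  obtain ⟨Dh, hDh⟩ : ∃ Dh : ℝ, ∀ R ∈ Set.Icc R1 R2, ‖∑ p ∈ T, |_root_.deriv p.2 R|‖ ≤ Dh := by
    refine isCompact_Icc.exists_bound_of_continuousOn (Continuous.continuousOn ?_)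
    refine continuous_finsetSum _ fun p hp => ?_
    exact ((D.smooth p hp).continuous_deriv (by norm_num)).abs
  have hDh0 : 0 ≤ Dh := (norm_nonneg _).trans (hDh R1 ⟨le_rfl, h12⟩)
  have hDh' : ∀ p ∈ T, ∀ R ∈ Set.Icc R1 R2, _root_.deriv p.2 R ≤ Dh := by
    intro p hp R hR
    refine le_trans ((le_abs_self _).trans ?_) (hDh R hR)
    rw [Real.norm_of_nonneg (Finset.sum_nonneg fun p _ => abs_nonneg _)]
    exact Finset.single_le_sum (f := fun p : (Fin n → ℝ) × (ℝ → ℝ) => |_root_.deriv p.2 R|)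
      (fun p _ => abs_nonneg _) hp
  set η := κ' / (1 + Dh) with hη
  have hη0 : 0 < η := by positivity
  have hηD : η * Dh ≤ κ' := by
    rw [hη, div_mul_eq_mul_div, div_le_iff₀ (by positivity)]
    nlinarith
  set t1 := (R2 - R1) / η with ht1
  have ht1n : 0 ≤ t1 := div_nonneg (by linarith) hη0.le
  have hηt1 : η * t1 = R2 - R1 := by
    rw [ht1]; field_simp
  refine ⟨t1 + 1, by linarith, ?_⟩
  intro x₀ hx₀ J hJ y hy s hs hcls hR2 t ht hst
  have hs1 : s + t1 ∈ J := hJ.out hs ht ⟨by linarith, by linarith⟩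
  have hss : s ≤ s + t1 := by linarith
  have hrange : ∀ r ∈ Set.Icc s (s + t1), R1 ≤ R2 + η * s - η * r ∧ R2 + η * s - η * r ≤ R2 := by
    intro r hr
    have h1 : η * (r - s) ≤ η * t1 := mul_le_mul_of_nonneg_left (by linarith [hr.2]) hη0.le
    have h2 : 0 ≤ η * (r - s) := mul_nonneg hη0.le (by linarith [hr.1])
    constructor <;> nlinarith
  have key := coreAE T y (_root_.deriv y) s (s + t1) (c r0)
    (R2 + η * s) η hss (D.cpos r0) D.smooth (hy.ac s hs (s + t1) hs1 hss)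
    (by
      filter_upwards [hy.deriv] with r hr hrm
      exact (hr (hJ.out hs hs1 hrm)).1)
    (by
      intro p hp
      rw [add_sub_cancel_right]
      exact hR2 p hp)
    (by
      filter_upwards [hy.deriv] with r hrd hr p hp h1 h2 h3
      have hrJ := hJ.out hs hs1 hr
      have hr' := hrange r hr
      have h3' : ∑ j, p.1 j * y r j - p.2 (R2 + η * s - η * r) ≤ c (R2 + η * s - η * r) :=
        h3.trans (hmin ⟨hr'.1, hr'.2⟩)
      have hO : ∃ u ∈ U, ∑ j, p.1 j * u j ≠ 0 := by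
        by_contra hcon
        push Not at hcon
        have h4 := hcls r hrJ hr.1 p.1 hcon
        have h5 := hx₀ (R2 + η * s - η * r) hr'.1 p hp
        linarith
      have hin := B.dir _ (hR1.trans hr'.1) (y r) p hp h1 h2 h3'
      have hbox := B.bnd _ (hR1.trans hr'.1) (y r) fun q hq => (h1 q hq).trans h3'
      have h6 := hstr _ _ (hy.pos r hrJ) (hrd hrJ).2 p hp hO hin
      have h8 : κ0 ≤ κ (y r) := hκ0' (y r) ⟨fun j => (hmin ⟨hr'.1, hr'.2⟩ : c r0 ≤ _).trans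
        (hbox j).1, fun j => (hbox j).2.trans (hmx ⟨hr'.1, hr'.2⟩ : _ ≤ M r1)⟩
      have h9 : κ' ≤ κ (y r) * m p.1 :=
        mul_le_mul h8 (hm0' p hp hO) hm0.le (hκ00.le.trans h8)
      have h7 : η * _root_.deriv p.2 (R2 + η * s - η * r) ≤ η * Dh :=
        mul_le_mul_of_nonneg_left (hDh' p hp _ ⟨hr'.1, hr'.2⟩) hη0.le
      linarith)
  have hend : y (s + t1) ∈ Kb T R1 := by
    intro p hp
    have := key (s + t1) ⟨hss, le_rfl⟩ p hp
    have e : R2 + η * s - η * (s + t1) = R1 := by linarith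
    rwa [e] at this
  exact fwdT B hR1 J hJ P hP y hy hs1 ht (by linarith) hend

/-- curves with velocity in a subspace stay in its cosets -/
theorem span_curve (S : Submodule ℝ (Fin n → ℝ)) (J : Set ℝ) (hJ : J.OrdConnected)
    (P : (Fin n → ℝ) → (Fin n → ℝ) → Prop) (hP : ∀ x v, P x v → v ∈ S) (y : ℝ → Fin n → ℝ)
    (hy : IsCurve P y J) {s t : ℝ} (hs : s ∈ J) (ht : t ∈ J) (hst : s ≤ t) :
    y t - y s ∈ S := by
  rw [← Subspace.forall_mem_dualAnnihilator_apply_eq_zero_iff]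
  intro φ hφ
  rw [Submodule.mem_dualAnnihilator] at hφ
  set l : (Fin n → ℝ) →L[ℝ] ℝ := LinearMap.toContinuousLinearMap φ with hl
  have hlφ : ∀ z, l z = φ z := fun z => rfl
  have h1 : AbsolutelyContinuousOnInterval (fun s => l (y s)) s t :=
    ac_lin (hy.ac s hs t ht hst) l
  obtain ⟨C, hC⟩ := h1.const_of_ae_hasDerivAt_zero (by
    filter_upwards [hy.vel] with r hr hrm
    rw [Set.uIcc_of_le hst] at hrm
    have hrJ : r ∈ J := hJ.out hs ht hrm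
    obtain ⟨v, hv, hPv⟩ := hr hrJ
    have h2 := l.hasFDerivAt.comp_hasDerivAt r hv
    have h3 : l v = 0 := by
      rw [hlφ]
      exact hφ _ (hP _ _ hPv)
    rw [h3] at h2
    exact h2)
  have e1 := hC t (by rw [Set.uIcc_of_le hst]; exact ⟨hst, le_rfl⟩)
  have e2 := hC s (by rw [Set.uIcc_of_le hst]; exact ⟨le_rfl, hst⟩)
  have : l (y t) - l (y s) = 0 := by
    have e1' : l (y t) = C := e1
    have e2' : l (y s) = C := e2
    rw [e1', e2', sub_self]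
  rw [map_sub]
  exact this

theorem dot_span {w : Fin n → ℝ} (hw : ∀ u ∈ U, ∑ j, w j * u j = 0) {z : Fin n → ℝ}
    (hz : z ∈ Submodule.span ℝ (U : Set (Fin n → ℝ))) : ∑ j, w j * z j = 0 := by
  induction hz using Submodule.span_induction with
  | mem x hx => exact hw x hx
  | zero => simp
  | add x y _ _ hx hy =>
    simp only [Pi.add_apply, mul_add, sum_add_distrib, hx, hy, add_zero]
  | smul r x _ hx =>
    have : ∑ j, w j * (r • x) j = r * ∑ j, w j * x j := by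
      rw [mul_sum]
      exact sum_congr rfl fun j _ => by simp only [Pi.smul_apply, smul_eq_mul]; ring
    rw [this, hx, mul_zero]

/-- the monomial as an exponential -/
theorem mono_exp (u x : Fin n → ℝ) (hx : ∀ i, 0 < x i) :
    ∏ i, x i ^ u i = Real.exp (∑ j, u j * Real.log (x j)) := by
  rw [Real.exp_sum]
  exact prod_congr rfl fun i _ => by rw [Real.rpow_def_of_pos (hx i)]; ring_nf

/-! ### toric inclusions -/

/-- The velocities allowed at `x`: the combinations `∑ a u • u` with `a u ≥ 0`, `a u = 0` if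
`x ^ u > C`, and `a u ≥ κ x` if `C x ^ u < 1`. -/
def Tor (U : Finset (Fin n → ℝ)) (C : ℝ) (κ : (Fin n → ℝ) → ℝ) (x v : Fin n → ℝ) : Prop :=
  ∃ a : (Fin n → ℝ) → ℝ, (∀ u ∈ U, 0 ≤ a u ∧ (C < ∏ i, x i ^ u i → a u = 0) ∧
    (C * ∏ i, x i ^ u i < 1 → κ x ≤ a u)) ∧ v = ∑ u ∈ U, a u • u

theorem dot_sum (w : Fin n → ℝ) (a : (Fin n → ℝ) → ℝ) :
    ∑ j, w j * (∑ u ∈ U, a u • u) j = ∑ u ∈ U, a u * ∑ j, w j * u j := by
  simp only [Finset.sum_apply, Pi.smul_apply, smul_eq_mul, mul_sum]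
  rw [sum_comm]
  exact sum_congr rfl fun u _ => sum_congr rfl fun j _ => by ring

theorem tor_strict {C : ℝ} (hδ : C ≤ Real.exp δ) {κ : (Fin n → ℝ) → ℝ} {x v w : Fin n → ℝ}
    (hx : ∀ i, 0 < x i) (h : Tor U C κ x v) (hw : Inw (U ∪ U.image fun u => -u) δ x w) :
    ∑ j, w j * v j ≤ -(κ x * ∑ u ∈ U, max 0 (-∑ j, w j * u j)) := by
  obtain ⟨a, ha, rfl⟩ := h
  rw [dot_sum, mul_sum, ← sum_neg_distrib]
  refine sum_le_sum fun u hu => ?_
  obtain ⟨h0, h1, h2⟩ := ha u hu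
  rcases lt_trichotomy (∑ j, w j * u j) 0 with h | h | h
  · rw [max_eq_right (by linarith)]
    have h3 : 0 < ∑ j, w j * (-u) j := by
      have : ∑ j, w j * (-u) j = -∑ j, w j * u j := by
        rw [← sum_neg_distrib]
        exact sum_congr rfl fun j _ => by rw [Pi.neg_apply]; ring
      rw [this]
      linarith
    have h4 := hw (-u) (mem_union_right _ (mem_image_of_mem _ hu)) h3
    have h5 : ∑ j, (-u) j * Real.log (x j) = -∑ j, u j * Real.log (x j) := by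
      rw [← sum_neg_distrib]
      exact sum_congr rfl fun j _ => by rw [Pi.neg_apply]; ring
    rw [h5] at h4
    have h6 : C * ∏ i, x i ^ u i < 1 := by
      rw [mono_exp u x hx]
      calc C * Real.exp (∑ j, u j * Real.log (x j)) ≤
          Real.exp δ * Real.exp (∑ j, u j * Real.log (x j)) :=
            mul_le_mul_of_nonneg_right hδ (Real.exp_pos _).le
        _ = Real.exp (δ + ∑ j, u j * Real.log (x j)) := (Real.exp_add _ _).symm
        _ < Real.exp 0 := Real.exp_lt_exp.2 (by linarith)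
        _ = 1 := Real.exp_zero
    have h7 := h2 h6
    nlinarith
  · rw [h]
    simp
  · have h3 := hw u (mem_union_left _ hu) h
    have h4 : C < ∏ i, x i ^ u i := by
      rw [mono_exp u x hx]
      exact hδ.trans_lt (Real.exp_lt_exp.2 h3)
    rw [h1 h4, max_eq_left (by linarith)]
    simp

theorem tor_le {C : ℝ} (hδ : C ≤ Real.exp δ) {κ : (Fin n → ℝ) → ℝ} {x v w : Fin n → ℝ}
    (hx : ∀ i, 0 < x i) (h : Tor U C κ x v)
    (hw : Inw (U ∪ U.image fun u => -u) δ x w) : ∑ j, w j * v j ≤ 0 := by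
  have h' : Tor U C (fun _ => 0) x v := by
    obtain ⟨a, ha, hv⟩ := h
    exact ⟨a, fun u hu => ⟨(ha u hu).1, (ha u hu).2.1, fun _ => (ha u hu).1⟩, hv⟩
  have := tor_strict hδ hx h' hw
  simpa using this

/-- the drift constant is positive -/
theorem drift_pos (c' : (Fin n → ℝ) → ℝ) (hc : ∀ u ∈ U, 0 < c' u) (h0 : ∑ u ∈ U, c' u • u = 0)
    (w : Fin n → ℝ) (h : ∃ u ∈ U ∪ U.image fun u => -u, ∑ j, w j * u j ≠ 0) :
    0 < ∑ u ∈ U, max 0 (-∑ j, w j * u j) := by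
  have h1 : ∃ u ∈ U, ∑ j, w j * u j ≠ 0 := by
    obtain ⟨u, hu, hne⟩ := h
    rcases mem_union.1 hu with hu | hu
    · exact ⟨u, hu, hne⟩
    · obtain ⟨u', hu', rfl⟩ := mem_image.1 hu
      refine ⟨u', hu', fun h => hne ?_⟩
      have : ∑ j, w j * (-u') j = -∑ j, w j * u' j := by
        rw [← sum_neg_distrib]
        exact sum_congr rfl fun j _ => by rw [Pi.neg_apply]; ring
      rw [this, h, neg_zero]
  have h2 : ∑ u ∈ U, c' u * ∑ j, w j * u j = 0 := by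
    rw [← dot_sum, h0]
    simp
  have h3 : ∃ u ∈ U, ∑ j, w j * u j < 0 := by
    by_contra hcon
    push Not at hcon
    obtain ⟨u, hu, hne⟩ := h1
    have h4 := (sum_eq_zero_iff_of_nonneg fun u hu => mul_nonneg (hc u hu).le (hcon u hu)).1 h2 u hu
    rcases mul_eq_zero.1 h4 with h5 | h5
    · exact absurd h5 (hc u hu).ne'
    · exact hne h5
  obtain ⟨u, hu, hlt⟩ := h3
  refine sum_pos' (fun u _ => le_max_left _ _) ⟨u, hu, ?_⟩
  exact lt_max_of_lt_right (by linarith)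

theorem tor_span {C : ℝ} {κ : (Fin n → ℝ) → ℝ} {x v : Fin n → ℝ} (h : Tor U C κ x v) :
    v ∈ Submodule.span ℝ (U : Set (Fin n → ℝ)) := by
  obtain ⟨a, _, rfl⟩ := h
  exact Submodule.sum_mem _ fun u hu => Submodule.smul_mem _ _ (Submodule.subset_span hu)

/-- the statement for toric inclusions -/
theorem toric (U : Finset (Fin n → ℝ)) (C : ℝ) (C₀ : Set (Fin n → ℝ)) (hC₀ : IsCompact C₀)
    (hC₀p : ∀ x ∈ C₀, ∀ i, 0 < x i) :
    ∃ K : Set (Fin n → ℝ), IsCompact K ∧ Convex ℝ K ∧ (∀ x ∈ K, ∀ i, 0 < x i) ∧ C₀ ⊆ K ∧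
      (∀ (J : Set ℝ) (x : ℝ → Fin n → ℝ), J.OrdConnected → IsCurve (Tor U C fun _ => 0) x J →
        ∀ s ∈ J, x s ∈ K → ∀ t ∈ J, s ≤ t → x t ∈ K) ∧
      ((∃ c' : (Fin n → ℝ) → ℝ, (∀ u ∈ U, 0 < c' u) ∧ ∑ u ∈ U, c' u • u = 0) →
        ∀ κ : (Fin n → ℝ) → ℝ, ContinuousOn κ {x | ∀ i, 0 < x i} →
        (∀ x : Fin n → ℝ, (∀ i, 0 < x i) → 0 < κ x) →
        ∀ Q : Set (Fin n → ℝ), IsCompact Q → (∀ z ∈ Q, (∀ i, 0 < z i) ∧
          ∃ x₀ ∈ C₀, z - x₀ ∈ Submodule.span ℝ (U : Set (Fin n → ℝ))) →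
        ∃ τ : ℝ, 0 < τ ∧ ∀ (J : Set ℝ) (x : ℝ → Fin n → ℝ), J.OrdConnected →
          IsCurve (Tor U C κ) x J → ∀ s ∈ J, x s ∈ Q → ∀ t ∈ J, s + τ ≤ t → x t ∈ K) := by
  classical
  set δ := Real.log (max C 1) with hδdef
  have hδ : C ≤ Real.exp δ := by
    rw [hδdef, Real.exp_log (lt_of_lt_of_le one_pos (le_max_right _ _))]
    exact le_max_left _ _
  obtain ⟨T, c, M, R0, B⟩ := bod (U ∪ U.image fun u => -u) δ
  have D := B.toDat
  obtain ⟨m, N, hm, hN⟩ := box_of_compact hC₀ hC₀p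
  obtain ⟨R', hR'⟩ := exh_box D m N hm
  set R1 := max R0 R' with hR1
  have hR01 : R0 ≤ R1 := le_max_left _ _
  have hx₀ : ∀ x₀ ∈ C₀, ∀ R, R1 ≤ R → ∀ p ∈ T, ∑ j, p.1 j * x₀ j < p.2 R := fun x₀ hx R hR =>
    hR' R ((le_max_right _ _).trans hR) x₀ (hN x₀ hx)
  refine ⟨Kb T R1, Kb_compact D hR01, Kb_convex R1, fun x hx i => Kb_pos D hR01 hx i, ?_, ?_, ?_⟩
  · intro x hx p hp
    have := hx₀ x hx R1 le_rfl p hp
    linarith
  · intro J x hJ hx s hs hxs t ht hst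
    exact fwdT B hR01 J hJ _ (fun x v hx hv w hw => tor_le hδ hx hv hw) x hx hs ht hst hxs
  · rintro ⟨c', hc', h0⟩ κ hκ hκ0 Q hQ hQC
    obtain ⟨m', N', hm', hN'⟩ := box_of_compact hQ fun x hx => (hQC x hx).1
    obtain ⟨R'', hR''⟩ := exh_box D m' N' hm'
    set R2 := max R1 R'' with hR2
    have h12 : R1 ≤ R2 := le_max_left _ _
    obtain ⟨τ, hτ, H⟩ := absorbT B hR01 h12 (Tor U C κ)
      (fun x v hx hv w hw => tor_le hδ hx hv hw) κ hκ hκ0
      (fun w => ∑ u ∈ U, max 0 (-∑ j, w j * u j)) (fun p _ h => drift_pos c' hc' h0 p.1 h)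
      (fun x v hx hv p _ _ hw => tor_strict hδ hx hv hw)
    refine ⟨τ, hτ, fun J x hJ hx s hs hxs t ht hst => ?_⟩
    obtain ⟨_, x₀, hx₀C, hcl⟩ := hQC (x s) hxs
    refine H x₀ (hx₀ x₀ hx₀C) J hJ x hx s hs ?_ ?_ t ht hst
    · intro r hr hsr w hw
      have h1 := span_curve (Submodule.span ℝ (U : Set (Fin n → ℝ))) J hJ (Tor U C κ)
        (fun x v h => tor_span h) x hx hs hr hsr
      have h2 := dot_span (U := U) (w := w) (fun u hu => hw u (mem_union_left _ hu))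
        (Submodule.add_mem _ h1 hcl)
      have e : x r - x s + (x s - x₀) = x r - x₀ := by abel
      rw [e] at h2
      simp only [Pi.sub_apply, mul_sub, sum_sub_distrib] at h2
      linarith
    · intro p hp
      have := hR'' R2 (le_max_right _ _) (x s) (hN' _ hxs) p hp
      linarith

end Pool.Agent.KS6_21.W
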